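import Pool.Agent.H69.LQ.Lib

/-!
# Row V2 of the board lqm_modules: the symmetric difference
-/

set_option autoImplicit false

open MeasureTheory Metric Set
open scoped ENNReal
open Pool.Agent.H85.LK (E adm lam Ann)
open Pool.Agent.H69.LQ

namespace Pool.Agent.H80.LQ

theorem ray_int (N : ℕ) (hN : 2 ≤ N) (R : ℝ) (hR : 0 < R) (f : ℝ → ℝ)
    (hf0 : ∀ r, 0 < r → 0 ≤ f r) (hf : ∀ r, 0 < r → f r ≤ (Ico R 1).indicator (fun r => r ^ (N - 1)) r) :
    ∫ r in Ioi (0 : ℝ), f r ≤ |R ^ N - 1| / N := by
  have hN0 : (0 : ℝ) < N := by exact_mod_cast (by omega : 0 < N)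
  have hsub : Ico R 1 ⊆ Ioi (0 : ℝ) := fun r hr => lt_of_lt_of_le hR hr.1
  have hcont : Continuous fun r : ℝ => r ^ (N - 1) := continuous_pow _
  have hint : IntegrableOn (fun r : ℝ => r ^ (N - 1)) (Ico R 1) :=
    (hcont.integrableOn_Icc (a := R) (b := 1)).mono_set Ico_subset_Icc_self
  have hind : Integrable ((Ico R 1).indicator fun r : ℝ => r ^ (N - 1)) :=
    (integrable_indicator_iff measurableSet_Ico).2 hint
  have h1 : ∫ r in Ioi (0 : ℝ), f r ≤ ∫ r in Ioi (0 : ℝ),
      (Ico R 1).indicator (fun r : ℝ => r ^ (N - 1)) r := by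
    refine integral_mono_of_nonneg ?_ hind.integrableOn ?_
    · exact (ae_restrict_iff' measurableSet_Ioi).2 (ae_of_all _ fun r hr => hf0 r hr)
    · exact (ae_restrict_iff' measurableSet_Ioi).2 (ae_of_all _ fun r hr => hf r hr)
  have h2 : ∫ r in Ioi (0 : ℝ), (Ico R 1).indicator (fun r : ℝ => r ^ (N - 1)) r =
      ∫ r in Ico R 1, r ^ (N - 1) := by
    rw [integral_indicator measurableSet_Ico, Measure.restrict_restrict measurableSet_Ico,
      inter_eq_left.2 hsub]
  rw [h2] at h1
  refine h1.trans ?_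
  by_cases h : R ≤ 1
  · rw [integral_Ico_eq_integral_Ioc, ← intervalIntegral.integral_of_le h, integral_pow]
    have h3 : N - 1 + 1 = N := by omega
    have h4 : ((N - 1 : ℕ) : ℝ) + 1 = N := by
      rw [← Nat.cast_add_one, h3]
    rw [h3, h4, one_pow]
    refine div_le_div_of_nonneg_right ?_ hN0.le
    rw [abs_sub_comm]
    exact le_abs_self _
  · rw [Ico_eq_empty (by intro h5; exact h h5.le), setIntegral_empty]
    positivity

theorem pf_V2 (hMP : T_MP) : T_V2 := by
  intro N Ω a b R hN ha hb hO hV hE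
  obtain ⟨-, har, harN, hpol⟩ := hMP N hN
  have hN0 : (0 : ℝ) < N := by exact_mod_cast (by omega : 0 < N)
  have hBfin : volume (ball (0 : E N) 1) ≠ ⊤ := measure_ball_lt_top.ne
  have hOfin : volume Ω ≠ ⊤ := by rw [hV]; exact hBfin
  have hOm : MeasurableSet Ω := hO.measurableSet
  have hBm : MeasurableSet (ball (0 : E N) 1) := measurableSet_ball
  -- the two differences have the same volume
  have hd : volume.real (Ω \ ball (0 : E N) 1) = volume.real (ball (0 : E N) 1 \ Ω) := by
    have h1 := measureReal_sdiff_add_inter (μ := volume) (s := Ω) hBm hOfin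
    have h2 := measureReal_sdiff_add_inter (μ := volume) (s := ball (0 : E N) 1) hOm hBfin
    have h3 : volume.real Ω = volume.real (ball (0 : E N) 1) := by
      unfold Measure.real
      rw [hV]
    rw [inter_comm] at h2
    linarith
  have hs : volume.real (symmDiff Ω (ball (0 : E N) 1)) ≤
      2 * volume.real (ball (0 : E N) 1 \ Ω) := by
    have h1 : symmDiff Ω (ball (0 : E N) 1) = (Ω \ ball (0 : E N) 1) ∪ (ball (0 : E N) 1 \ Ω) :=
      rfl
    rw [h1]
    have h2 := measureReal_union_le (μ := volume) (Ω \ ball (0 : E N) 1) (ball (0 : E N) 1 \ Ω)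
    rw [hd] at h2
    linarith
  -- polar coordinates
  obtain ⟨D, hD⟩ : ∃ D : Set (E N), D = ball (0 : E N) 1 \ Ω := ⟨_, rfl⟩
  have hDm : MeasurableSet D := by rw [hD]; exact hBm.diff hOm
  have hDfin : volume D ≠ ⊤ := by
    rw [hD]
    exact ((measure_mono sdiff_subset).trans_lt measure_ball_lt_top).ne
  have hg : Integrable (D.indicator fun _ : E N => (1 : ℝ)) :=
    (integrable_indicator_iff hDm).2 (integrableOn_const hDfin)
  obtain ⟨-, h2, h3⟩ := hpol _ hg
  have h4 : ∫ x, D.indicator (fun _ : E N => (1 : ℝ)) x = volume.real D := by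
    rw [integral_indicator hDm, setIntegral_const, smul_eq_mul, mul_one]
  rw [h4] at h3
  have hG : BM fun θ : Sp N => |R θ ^ N - 1| / N := by
    refine ⟨(((hE.meas.pow_const N).sub_const 1).norm).div_const _, (b ^ N + 1) / N, fun θ => ?_⟩
    have h5 : 0 < R θ := ha.trans (hE.lo θ)
    have h6 : R θ ^ N ≤ b ^ N := pow_le_pow_left₀ h5.le (hE.hi θ) N
    have h7 : 0 < R θ ^ N := pow_pos h5 N
    rw [abs_div, abs_abs, abs_of_pos hN0]
    refine div_le_div_of_nonneg_right ?_ hN0.le
    rw [abs_le]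
    constructor <;> linarith
  have hmono : av (fun θ : Sp N => ∫ r in Ioi (0 : ℝ),
      r ^ (N - 1) * D.indicator (fun _ : E N => (1 : ℝ)) (r • (θ : E N))) ≤
      av fun θ : Sp N => |R θ ^ N - 1| / N := by
    refine integral_mono h2 hG.integrable fun θ => ?_
    refine ray_int N hN (R θ) (ha.trans (hE.lo θ)) _ ?_ ?_
    · intro r hr
      exact mul_nonneg (pow_nonneg hr.le _) (indicator_nonneg (fun _ _ => zero_le_one) _)
    · intro r hr
      by_cases hm : r • (θ : E N) ∈ D
      · have h5 : r ∈ Ico (R θ) 1 := by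
          rw [hD] at hm
          refine ⟨?_, ?_⟩
          · by_contra h6
            exact hm.2 (hE.ins θ r hr.le (not_le.1 h6))
          · have h6 := hm.1
            rw [mem_ball_zero_iff, norm_smul_sp, abs_of_pos hr] at h6
            exact h6
        rw [indicator_of_mem hm, indicator_of_mem h5, mul_one]
      · rw [indicator_of_notMem hm, mul_zero]
        exact indicator_nonneg (fun s hs => pow_nonneg
          ((ha.trans (hE.lo θ)).le.trans hs.1) _) _
  have hav : av (fun θ : Sp N => |R θ ^ N - 1| / N) = av (fun θ : Sp N => |R θ ^ N - 1|) / N := by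
    have h5 : (fun θ : Sp N => |R θ ^ N - 1| / N) = fun θ : Sp N => |R θ ^ N - 1| * (N : ℝ)⁻¹ := by
      funext θ
      rw [div_eq_mul_inv]
    rw [h5, av_mul_const, div_eq_mul_inv]
  rw [hav] at hmono
  have h8 : volume.real D ≤ volume.real (ball (0 : E N) 1) * av fun θ : Sp N => |R θ ^ N - 1| := by
    rw [h3, harN]
    calc (N : ℝ) * volume.real (ball (0 : E N) 1) * av (fun θ : Sp N => ∫ r in Ioi (0 : ℝ),
          r ^ (N - 1) * D.indicator (fun _ : E N => (1 : ℝ)) (r • (θ : E N)))
        ≤ (N : ℝ) * volume.real (ball (0 : E N) 1) *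
          (av (fun θ : Sp N => |R θ ^ N - 1|) / N) :=
          mul_le_mul_of_nonneg_left hmono (by positivity)
      _ = _ := by field_simp
  rw [← hD] at hs
  linarith

end Pool.Agent.H80.LQ
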